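import Pool.Agent.X42.PermWords

/-!
# Shortest words containing `m` permutations, up to a constant factor
-/

set_option autoImplicit false

namespace Pool.Agent.Results.MP_6c7e5c_co.ConstantThirteen

open Pool.Agent.X42.PermWords

/-- `h(n, m) ≤ 13 ℓ(m, n)` for all `n ≥ 1` and all `1 ≤ m ≤ n!`. -/
theorem result : ∀ n m : ℕ, 1 ≤ n → 1 ≤ m → m ≤ n.factorial → h n m ≤ 13 * ell m n :=
  fun _ _ hn hm hmn => main hn hm hmn

end Pool.Agent.Results.MP_6c7e5c_co.ConstantThirteen
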